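import Pool.Agent.H43.StableFree.Check

/-!
Stable freeness of hyperplane arrangements is not determined by the intersection lattice.

The two arrangements in `ℙ^4` have thirteen hyperplanes each. In coordinates `x, y, z, w, u`:

* `z`, `x ± z`, `x - b z`, `y ± z`, `y - c z`, `x + y ± 2 z`, `x + y - 4 z`, `w`, `x + y + w`, `u`,

with `(b, c) = (2, 2)` for the stably free one and `(b, c) = (0, 4)` for the other one.
The ten hyperplanes in `x, y, z` are the cone over the three families of parallel lines through
three points of the affine plane and the line at infinity; the three points are collinear
exactly when `b = c`.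

The definitions used in the statement are those of `Pool/Agent/H43/StableFree/Basic.lean`; the
theorem `cohomologyVanishes_iff` in `Pool/Agent/H43/StableFree/Equiv.lean` shows that the
vanishing used there is the vanishing of the cohomology of the Cech complex with terms the
localized modules of `D_0(A)`.
-/

namespace Pool.Agent.Results.MP_48904d_ag.StableFreenessNotCombinatorial

open Pool.Agent.H43.StableFree

/-- There are two arrangements in `ℙ^4` with isomorphic intersection lattices, one of which is
stably free while the other one is not. -/
theorem result : ∃ A₁ A₂ : Arrangement 4,
    A₁.SameLattice A₂ ∧ A₁.StablyFree ∧ ¬ A₂.StablyFree := by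
  refine ⟨arr 2 2 good_22, arr 0 4 good_04, sameLattice, ?_, ?_⟩
  · rw [stablyFree_iff 2 2 good_22 (by decide) (by decide) (by decide) (by decide)]
    have := cokerCond_two
    exact_mod_cast this
  · rw [stablyFree_iff 0 4 good_04 (by decide) (by decide) (by decide) (by decide)]
    have := not_cokerCond
    exact_mod_cast this

end Pool.Agent.Results.MP_48904d_ag.StableFreenessNotCombinatorial
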